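import Pool.Agent.N520.AN.Stm2

/-!
Project AN2: the images of plates are plates.

The attracting space of a translated sequence follows `Pool.Agent.N776.AN.Im`.
-/

set_option autoImplicit false

open Set Filter Topology

namespace Pool.Agent.N507.AN2.IM

open Pool.Agent.N520.AN

section
variable {E : Type} [NormedAddCommGroup E] [NormedSpace ℝ E] [FiniteDimensional ℝ E]

/-- The attracting space of a translated sequence. -/
theorem mem_att_mul (g : E ≃ₗ[ℝ] E) (g' : ℕ → E ≃ₗ[ℝ] E) (u : E) :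
    u ∈ att (fun j => g * g' j) ↔ g.symm u ∈ att g' := by
  have hc : Continuous g := LinearMap.continuous_of_finiteDimensional (g : E →ₗ[ℝ] E)
  have hc' : Continuous g.symm := LinearMap.continuous_of_finiteDimensional (g.symm : E →ₗ[ℝ] E)
  constructor
  · rintro ⟨b, hb, hu⟩
    refine ⟨b, hb, ?_⟩
    have h1 := (hc'.tendsto u).comp hu
    refine h1.congr fun j => ?_
    change g.symm (g (g' j (b j))) = g' j (b j)
    exact g.symm_apply_apply _
  · rintro ⟨b, hb, hu⟩
    refine ⟨b, hb, ?_⟩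
    have h1 := (hc.tendsto (g.symm u)).comp hu
    rw [g.apply_symm_apply] at h1
    exact h1

/-- The big space of a translated sequence. -/
theorem mem_big_mul (g : E ≃ₗ[ℝ] E) (g' : ℕ → E ≃ₗ[ℝ] E) (u : E) :
    u ∈ big (fun j => g * g' j) ↔ g.symm u ∈ big g' := by
  have hc : Continuous g := LinearMap.continuous_of_finiteDimensional (g : E →ₗ[ℝ] E)
  have hc' : Continuous g.symm := LinearMap.continuous_of_finiteDimensional (g.symm : E →ₗ[ℝ] E)
  constructor
  · rintro ⟨x, C, hx, hu⟩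
    refine ⟨x, C, hx, ?_⟩
    have h1 := (hc'.tendsto u).comp hu
    refine h1.congr fun j => ?_
    change g.symm (g (g' j (x j))) = g' j (x j)
    exact g.symm_apply_apply _
  · rintro ⟨x, C, hx, hu⟩
    refine ⟨x, C, hx, ?_⟩
    have h1 := (hc.tendsto (g.symm u)).comp hu
    rw [g.apply_symm_apply] at h1
    exact h1

theorem map_eq (g : E ≃ₗ[ℝ] E) {A B : Submodule ℝ E} (h : ∀ u, u ∈ A ↔ g.symm u ∈ B) :
    A = B.map (g : E →ₗ[ℝ] E) := by
  ext u
  rw [h, Submodule.mem_map]
  constructor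
  · intro h
    exact ⟨g.symm u, h, g.apply_symm_apply u⟩
  · rintro ⟨v, hv, rfl⟩
    change g.symm (g v) ∈ B
    rw [g.symm_apply_apply]
    exact hv

end

/-- The images of plates are plates. -/
theorem t_im (h : S2_PAR) : S2_IM := by
  intro E _ _ _ q Λ hΛ g hg k hk
  obtain ⟨-, g', hg', ⟨hq, hb⟩, hr⟩ := hk
  have h1 : ∀ j, g * g' j ∈ Λ := fun j => Λ.mul_mem hg (hg' j)
  have h2 : Module.finrank ℝ (att fun j => g * g' j) = q := by
    rw [map_eq g (mem_att_mul g g'), LinearEquiv.finrank_map_eq, hq]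
  have h3 : Module.finrank ℝ (big fun j => g * g' j) + q = Module.finrank ℝ E := by
    rw [map_eq g (mem_big_mul g g'), LinearEquiv.finrank_map_eq, hb]
  obtain ⟨l, hl, hl2⟩ := h E q (big fun j => g * g' j) h3
  refine ⟨l, ⟨hl, fun j => g * g' j, h1, ⟨h2, h3⟩, hl2⟩, fun u => ?_⟩
  rw [hl2, hr, mem_big_mul]

end Pool.Agent.N507.AN2.IM
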